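import Pool.Agent.K7.H35.C.Fam

/-!
# The curves from `f y` to `σ (f y)`, and their polygons
-/

set_option autoImplicit false

open Set Topology Filter

namespace Pool.Agent.K7.H35.C

open Pool.Agent.Y489.GE Pool.Agent.Y911.GE Pool.Agent.K7.H35.R

variable {X : Type} [MetricSpace X]

/-- a homotopy from the identity to `σ` through `lam`-Lipschitz maps which fix the points of `P` -/
structure Turn (X : Type) [MetricSpace X] (σ : X → X) (P : Set X) (lam : ℝ) (g : ℝ → X → X) :
    Prop where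
  cont : Continuous fun z : ℝ × X => g z.1 z.2
  zero : ∀ x, g 0 x = x
  one : ∀ x, g 1 x = σ x
  lip : ∀ t x y, dist (g t x) (g t y) ≤ lam * dist x y
  fix : ∀ t, ∀ z ∈ P, g t z = z

theorem cl_lip (s t : ℝ) : |cl s - cl t| ≤ |s - t| := clamp_lip 1 s t zero_le_one

theorem cl_zero : cl 0 = 0 := cl_of_le le_rfl

theorem cl_one : cl 1 = 1 := cl_of_ge le_rfl

theorem curves {Y : Type} [TopologicalSpace Y] [CompactSpace Y] {σ : X → X} {P : Set X}
    {lam : ℝ} {g : ℝ → X → X} (hg : Turn X σ P lam g) (hlam : 0 < lam) {b : ℝ} (hb : 0 < b)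
    {q : ℕ} {f : Y → X} (hf : Continuous f) {A : Set Y} (hA : ∀ y ∈ A, f y ∈ P)
    {t : ℕ → Y → ℝ} {ρ : ℕ → Y → ℝ → X} (hD : DataF P b q f A t ρ) :
    ∃ Γ : Y → ℝ → X, (∀ s, Continuous fun y => Γ y s) ∧
      (∀ y s s', dist (Γ y s) (Γ y s') ≤ |s - s'|) ∧ (∀ y, Γ y 0 = f y) ∧
      (∀ y, Γ y ((2 * (q + 1) : ℕ) * (lam * b)) = σ (f y)) ∧ ∀ y ∈ A, ∀ s, Γ y s = f y := by
  classical
  obtain ⟨d1, d2, d3, d4, d5, d6⟩ := hD
  -- a uniform lower bound of the largest weight
  obtain ⟨θ, hθ, hθ'⟩ : ∃ θ : ℝ, 0 < θ ∧ ∀ y, ∃ v ≤ q, 2 * θ ≤ t v y := by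
    rcases isEmpty_or_nonempty Y with hE | hE
    · exact ⟨1, one_pos, fun y => (hE.false y).elim⟩
    · have hne : (Finset.range (q + 1)).Nonempty := ⟨0, by simp⟩
      have hc : Continuous fun y => (Finset.range (q + 1)).sup' hne fun v => t v y :=
        Continuous.finset_sup'_apply hne fun v _ => d1 v
      obtain ⟨y₀, -, hy₀⟩ := isCompact_univ.exists_isMinOn (univ_nonempty (α := Y)) hc.continuousOn
      have h0 : 0 < (Finset.range (q + 1)).sup' hne fun v => t v y₀ := by
        obtain ⟨v, hv, hv'⟩ := d3 y₀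
        exact (Finset.lt_sup'_iff hne).2 ⟨v, Finset.mem_range.2 (by omega), hv'⟩
      refine ⟨((Finset.range (q + 1)).sup' hne fun v => t v y₀) / 2, by positivity, fun y => ?_⟩
      have h1 := hy₀ (mem_univ y)
      obtain ⟨v, hv, hv'⟩ := Finset.exists_mem_eq_sup' hne fun v => t v y
      refine ⟨v, by rw [Finset.mem_range] at hv; omega, ?_⟩
      rw [← hv']
      have h2 : ((Finset.range (q + 1)).sup' hne fun v => t v y₀) ≤
        ((Finset.range (q + 1)).sup' hne fun v => t v y) := h1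
      linarith
  set w : ℕ → Y → ℝ := fun v y => max 0 (t v y - θ) with hw
  have hwc : ∀ v, Continuous (w v) := fun v => continuous_const.max ((d1 v).sub continuous_const)
  have hw0 : ∀ v y, 0 ≤ w v y := fun v y => le_max_left _ _
  set W : Y → ℝ := fun y => ∑ v ∈ Finset.range (q + 1), w v y with hW
  have hW0 : ∀ y, 0 < W y := by
    intro y
    obtain ⟨v, hv, hv'⟩ := hθ' y
    refine Finset.sum_pos' (fun v _ => hw0 v y) ⟨v, Finset.mem_range.2 (by omega), ?_⟩
    exact lt_max_of_lt_right (by linarith)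
  have hWc : Continuous W := continuous_finsetSum _ fun v _ => hwc v
  set T : ℕ → Y → ℝ := fun j y => (∑ v ∈ Finset.range j, w v y) / W y with hT
  have hTc : ∀ j, Continuous (T j) := fun j =>
    (continuous_finsetSum _ fun v _ => hwc v).div hWc fun y => (hW0 y).ne'
  have hT0 : ∀ y, T 0 y = 0 := fun y => by simp [hT]
  have hT1 : ∀ y, T (q + 1) y = 1 := fun y => div_self (hW0 y).ne'
  have hTs : ∀ j y, w j y = 0 → T (j + 1) y = T j y := by
    intro j y h
    simp only [hT]
    rw [Finset.sum_range_succ, h, add_zero]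
  set ℓ : ℕ → Y → ℝ → X := fun v => leg b θ f (t v) (ρ v) with hℓ
  have hℓd : ∀ v y s s', dist (ℓ v y s) (ℓ v y s') ≤ |s - s'| * b := fun v y s s' =>
    leg_dist hb.le hθ (d5 v) y s s'
  have hℓ0 : ∀ v y, ℓ v y 0 = f y := fun v y => leg_zero (d5 v) y
  have hℓ1 : ∀ v y, w v y ≠ 0 → ℓ v y 1 ∈ P := by
    intro v y h
    refine leg_one hθ (d5 v) ?_
    by_contra hcon
    push Not at hcon
    exact h (max_eq_left (by linarith))
  have hℓc : ∀ v s, Continuous fun y => ℓ v y s := fun v s =>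
    leg_cont hb.le hθ hf (d1 v) (d2 v) (d4 v) (d5 v) s
  have hℓA : ∀ v, ∀ y ∈ A, ∀ s, ℓ v y s = f y := by
    intro v y hy s
    show leg b θ f (t v) (ρ v) y s = f y
    unfold leg
    split_ifs with h
    · rw [d6 v y hy h]
    · rfl
  set a : ℝ := lam * b with ha
  have ha0 : 0 < a := mul_pos hlam hb
  set c : Y → ℕ → ℝ → X := fun y i s =>
    if i % 2 = 0 then g (T (i / 2) y) (ℓ (i / 2) y (cl (s / a)))
    else g (T (i / 2 + 1) y) (ℓ (i / 2) y (1 - cl (s / a))) with hc
  have hcc : ∀ i s, Continuous fun y => c y i s := by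
    intro i s
    simp only [hc]
    split_ifs
    · exact hg.cont.comp ((hTc _).prodMk (hℓc _ _))
    · exact hg.cont.comp ((hTc _).prodMk (hℓc _ _))
  have hcl : ∀ y i s s', dist (c y i s) (c y i s') ≤ |s - s'| := by
    intro y i s s'
    have key : ∀ u u' : ℝ, |u - u'| ≤ |s - s'| / a → ∀ T v,
        dist (g T (ℓ v y u)) (g T (ℓ v y u')) ≤ |s - s'| := by
      intro u u' hu T v
      refine (hg.lip _ _ _).trans ?_
      calc lam * dist (ℓ v y u) (ℓ v y u') ≤ lam * (|u - u'| * b) :=
            mul_le_mul_of_nonneg_left (hℓd v y u u') hlam.le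
        _ ≤ lam * (|s - s'| / a * b) := by
            refine mul_le_mul_of_nonneg_left (mul_le_mul_of_nonneg_right hu hb.le) hlam.le
        _ = |s - s'| := by
            rw [ha]
            field_simp
    have h1 : |cl (s / a) - cl (s' / a)| ≤ |s - s'| / a := by
      refine (cl_lip _ _).trans ?_
      rw [← sub_div, abs_div, abs_of_pos ha0]
    simp only [hc]
    split_ifs
    · exact key _ _ h1 _ _
    · refine key _ _ ?_ _ _
      have e : 1 - cl (s / a) - (1 - cl (s' / a)) = -(cl (s / a) - cl (s' / a)) := by ring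
      rw [e, abs_neg]
      exact h1
  have hcon : ∀ y i, c y i a = c y (i + 1) 0 := by
    intro y i
    have e1 : a / a = 1 := div_self ha0.ne'
    simp only [hc]
    rcases Nat.mod_two_eq_zero_or_one i with h | h
    · have h2 : (i + 1) % 2 = 1 := by omega
      have h3 : (i + 1) / 2 = i / 2 := by omega
      rw [if_pos h, if_neg (by omega), h3, e1, zero_div, cl_one, cl_zero, sub_zero]
      by_cases hz : w (i / 2) y = 0
      · rw [hTs _ _ hz]
      · rw [hg.fix _ _ (hℓ1 _ _ hz), hg.fix _ _ (hℓ1 _ _ hz)]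
    · have h2 : (i + 1) % 2 = 0 := by omega
      have h3 : (i + 1) / 2 = i / 2 + 1 := by omega
      rw [if_neg (by omega), if_pos h2, h3, e1, zero_div, cl_one, cl_zero, sub_self, hℓ0, hℓ0]
  have hst : ∀ y i s, a ≤ s → c y i s = c y i a := by
    intro y i s hs
    have e1 : cl (s / a) = cl (a / a) := by
      rw [div_self ha0.ne', cl_one, cl_of_ge ((one_le_div ha0).2 hs)]
    simp only [hc]
    rw [e1]
  refine ⟨fun y s => cat a (c y) (2 * (q + 1)) s, fun s => cat_cont hcc _ s, fun y s s' =>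
    cat_lip ha0 (fun i _ => hcl y i) (fun i _ => hcon y i) (fun i _ => hst y i) s s',
    fun y => ?_, fun y => ?_, fun y hy s => ?_⟩
  · show cat a (c y) (2 * (q + 1)) 0 = f y
    rw [cat_zero ha0.le]
    simp only [hc]
    rw [if_pos (by norm_num), Nat.zero_div, hT0, hg.zero, zero_div, cl_zero, hℓ0]
  · show cat a (c y) (2 * (q + 1)) _ = σ (f y)
    rw [cat_ge (by omega) ha0 (fun i _ => hcon y i) (fun i _ => hst y i) le_rfl]
    simp only [hc]
    have e1 : (2 * (q + 1) - 1) % 2 = 1 := by omega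
    have e2 : (2 * (q + 1) - 1) / 2 = q := by omega
    rw [if_neg (by omega), e2, hT1, hg.one, div_self ha0.ne', cl_one, sub_self, hℓ0]
  · refine cat_const (fun i s => ?_) _ _
    simp only [hc]
    split_ifs
    · rw [hℓA _ _ hy, hg.fix _ _ (hA y hy)]
    · rw [hℓA _ _ hy, hg.fix _ _ (hA y hy)]

/-- the closed polygon of a curve from `x` to `σ x` -/
noncomputable def pol (σ : X → X) (N : ℕ) (h : ℝ) (γ : ℝ → X) (i : ZMod (2 * N)) : X :=
  if i.val < N then γ (i.val * h) else σ (γ (((i.val - N : ℕ) : ℝ) * h))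

section

variable {σ : X → X} {N : ℕ} {h : ℝ} {γ : ℝ → X}

theorem val_succ {M : ℕ} [NeZero M] (i : ZMod M) :
    (i + 1).val = if i.val + 1 = M then 0 else i.val + 1 := by
  have hlt := ZMod.val_lt i
  have h1 : (i + 1).val = (i.val + 1) % M := by
    conv_lhs => rw [← ZMod.natCast_zmod_val i]
    have : ((i.val : ZMod M) + 1) = ((i.val + 1 : ℕ) : ZMod M) := by push_cast; rfl
    rw [this, ZMod.val_natCast]
  rw [h1]
  split_ifs with h
  · rw [h, Nat.mod_self]
  · exact Nat.mod_eq_of_lt (by omega)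

theorem val_half {N : ℕ} [NeZero (2 * N)] (i : ZMod (2 * N)) :
    (i + (N : ZMod (2 * N))).val = if i.val < N then i.val + N else i.val - N := by
  have hlt := ZMod.val_lt i
  have h1 : (i + (N : ZMod (2 * N))).val = (i.val + N) % (2 * N) := by
    conv_lhs => rw [← ZMod.natCast_zmod_val i]
    have : ((i.val : ZMod (2 * N)) + (N : ZMod (2 * N))) = ((i.val + N : ℕ) : ZMod (2 * N)) := by
      push_cast; rfl
    rw [this, ZMod.val_natCast]
  rw [h1]
  split_ifs with h
  · exact Nat.mod_eq_of_lt (by omega)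
  · rw [Nat.mod_eq_sub_mod (by omega), Nat.mod_eq_of_lt (by omega)]
    omega

theorem pol_tw [NeZero (2 * N)] (hσ : Isometry σ) (hσ2 : ∀ x, σ (σ x) = x) (hh : 0 ≤ h)
    (hγ : ∀ s t, dist (γ s) (γ t) ≤ |s - t|) (hend : γ (N * h) = σ (γ 0)) :
    pol σ N h γ ∈ Tw X σ N h := by
  have hN : 0 < N := by
    have := NeZero.ne (2 * N)
    omega
  have hstep : ∀ k : ℕ, dist (γ (k * h)) (γ ((k + 1 : ℕ) * h)) ≤ h := by
    intro k
    refine (hγ _ _).trans (le_of_eq ?_)
    have e : (k : ℝ) * h - ((k + 1 : ℕ) : ℝ) * h = -h := by push_cast; ring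
    rw [e, abs_neg, abs_of_nonneg hh]
  refine ⟨fun i => ?_, fun i => ?_⟩
  · have hlt := ZMod.val_lt i
    unfold pol
    rw [val_succ i]
    by_cases h1 : i.val + 1 = 2 * N
    · rw [if_pos h1, if_neg (show ¬ i.val < N by omega), if_pos hN]
      have h2 := hstep (i.val - N)
      have e : i.val - N + 1 = N := by omega
      rw [e, hend] at h2
      have h3 := hσ.dist_eq (γ (((i.val - N : ℕ) : ℝ) * h)) (σ (γ 0))
      rw [hσ2] at h3
      rw [Nat.cast_zero, zero_mul, h3]
      exact h2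
    · rw [if_neg h1]
      by_cases h2 : i.val + 1 < N
      · rw [if_pos (show i.val < N by omega), if_pos h2]
        exact hstep _
      · rw [if_neg h2]
        by_cases h3 : i.val < N
        · have e : i.val + 1 = N := by omega
          rw [if_pos h3, e, Nat.sub_self, Nat.cast_zero, zero_mul, ← hend]
          have h4 := hstep i.val
          rw [e] at h4
          exact h4
        · rw [if_neg h3, hσ.dist_eq]
          have e : i.val + 1 - N = i.val - N + 1 := by omega
          rw [e]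
          exact hstep _
  · have hlt := ZMod.val_lt i
    unfold pol
    rw [val_half i]
    by_cases h1 : i.val < N
    · rw [if_pos h1, if_pos h1, if_neg (by omega), Nat.add_sub_cancel]
    · rw [if_neg h1, if_neg h1, if_pos (by omega), hσ2]

omit [MetricSpace X] in
theorem pol_zero [NeZero (2 * N)] : pol σ N h γ 0 = γ 0 := by
  have hN : 0 < N := by
    have := NeZero.ne (2 * N)
    omega
  unfold pol
  rw [ZMod.val_zero, if_pos hN, Nat.cast_zero, zero_mul]

theorem pol_cont {Y : Type} [TopologicalSpace Y] (hσ : Continuous σ) {Γ : Y → ℝ → X}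
    (hΓ : ∀ s, Continuous fun y => Γ y s) : Continuous fun y => pol σ N h (Γ y) := by
  refine continuous_pi fun i => ?_
  unfold pol
  split_ifs
  · exact hΓ _
  · exact hσ.comp (hΓ _)

end

end Pool.Agent.K7.H35.C
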