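import Pool.Agent.R203.IF.BKS

/-!
# Polygons which are moved into themselves by an isometric involution
-/

set_option autoImplicit false

open Set Topology

noncomputable section

namespace Pool.Agent.K7.H35.C

open Pool.Agent.Y489.GE Pool.Agent.Y590.GE Pool.Agent.R203.IF

variable {X : Type} [MetricSpace X] {r₀ r : ℝ} {m : X → X → ℝ → X}

/-- closed polygons with `2 N` vertices; the second half is the image of the first half -/
def Tw (X : Type) [MetricSpace X] (σ : X → X) (N : ℕ) (δ : ℝ) : Set (ZMod (2 * N) → X) :=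
  {x | x ∈ Pol X (2 * N) δ ∧ ∀ i, x (i + (N : ZMod (2 * N))) = σ (x i)}

theorem ph_tw (hm : GMap X r m) (hr : r < r₀) (hU : UniqGeod X r₀) {σ : X → X}
    (hσ : Isometry σ) {N : ℕ} [NeZero (2 * N)] {δ : ℝ} (hδ : δ ≤ r) {x : ZMod (2 * N) → X}
    (hx : x ∈ Tw X σ N δ) {t : ℝ} (ht : t ∈ Icc (0 : ℝ) 1) : ph m (2 * N) t x ∈ Tw X σ N δ := by
  refine ⟨(Pool.Agent.Y812.GE.t_EN X r m hm (2 * N) δ hδ x hx.1 t ht).1, fun i => ?_⟩
  show m (x (i + (N : ZMod (2 * N)))) (x (i + (N : ZMod (2 * N)) + 1)) t =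
    σ (m (x i) (x (i + 1)) t)
  have e : i + (N : ZMod (2 * N)) + 1 = i + 1 + (N : ZMod (2 * N)) := by ring
  rw [e, hx.2, hx.2, m_equiv hm hr hU hσ ((hx.1 i).trans hδ) ht]

theorem shorten [CompactSpace X] (hm : GMap X r m) (hr0 : r < r₀) (hU : UniqGeod X r₀)
    {σ : X → X} (hσ : Isometry σ) (N : ℕ) [NeZero (2 * N)] {δ : ℝ} (hδ : 0 < δ) (hδr : δ ≤ r)
    (hne : ∀ x ∈ Pol X (2 * N) δ, (δ / (2 * (2 * N : ℕ))) ^ 2 ≤ En (2 * N) x →
      En (2 * N) (ph m (2 * N) (1 / 2) x) ≠ En (2 * N) x) :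
    ∃ Φ : ↥(Tw X σ N δ) → ↥(Tw X σ N δ),
      Htp (Y := ↥(Tw X σ N δ)) (W := ZMod (2 * N) → X) (Tw X σ N δ)
        {x | ∀ i, x.1 i = x.1 0} (fun x => x.1) (fun x => (Φ x).1) ∧
      ∀ y i, dist ((Φ y).1 i) ((Φ y).1 0) ≤ δ / 2 := by
  have hr : 0 ≤ r := hδ.le.trans hδr
  have hM : (0 : ℝ) < ((2 * N : ℕ) : ℝ) := by
    exact_mod_cast Nat.pos_of_ne_zero (NeZero.ne (2 * N))
  have hhalf : (1 / 2 : ℝ) ∈ Icc (0 : ℝ) 1 := ⟨by norm_num, by norm_num⟩
  set e : ℝ := δ / (2 * (2 * N : ℕ)) with he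
  have he0 : 0 < e := by positivity
  -- uniform decrease
  have hdec : ∃ η : ℝ, 0 < η ∧ ∀ x ∈ Pol X (2 * N) δ, e ^ 2 ≤ En (2 * N) x →
      En (2 * N) (ph m (2 * N) (1 / 2) x) ≤ En (2 * N) x - η := by
    have hc1 : ContinuousOn (fun x : ZMod (2 * N) → X => ph m (2 * N) (1 / 2) x)
        (Pol X (2 * N) δ) :=
      ph_cont hm (2 * N) hδr continuousOn_id continuousOn_const (fun z hz => hz)
        (fun _ _ => hhalf)
    have hc : ContinuousOn (fun x : ZMod (2 * N) → X =>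
        En (2 * N) x - En (2 * N) (ph m (2 * N) (1 / 2) x)) (Pol X (2 * N) δ) :=
      (En_cont (2 * N)).continuousOn.sub ((En_cont (2 * N)).comp_continuousOn hc1)
    set K : Set (ZMod (2 * N) → X) := Pol X (2 * N) δ ∩ {x | e ^ 2 ≤ En (2 * N) x} with hK
    have hKc : IsCompact K :=
      (Pol_compact (2 * N) δ).inter_right (isClosed_le continuous_const (En_cont (2 * N)))
    rcases K.eq_empty_or_nonempty with h0 | h0
    · refine ⟨1, one_pos, fun x hx hx2 => ?_⟩
      have : x ∈ K := ⟨hx, hx2⟩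
      rw [h0] at this
      exact this.elim
    · obtain ⟨x0, hx0, hmin⟩ := hKc.exists_isMinOn h0 (hc.mono inter_subset_left)
      refine ⟨En (2 * N) x0 - En (2 * N) (ph m (2 * N) (1 / 2) x0), ?_, fun x hx hx2 => ?_⟩
      · have h1 := (Pool.Agent.Y812.GE.t_EN X r m hm (2 * N) δ hδr x0 hx0.1 (1 / 2) hhalf).2
        have h2 := hne x0 hx0.1 hx0.2
        exact sub_pos.2 (lt_of_le_of_ne h1 h2)
      · have h3 : En (2 * N) x0 - En (2 * N) (ph m (2 * N) (1 / 2) x0) ≤
            En (2 * N) x - En (2 * N) (ph m (2 * N) (1 / 2) x) := hmin (⟨hx, hx2⟩ : x ∈ K)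
        linarith
  obtain ⟨η, hη, hdec⟩ := hdec
  -- the shortening map
  let F : ↥(Tw X σ N δ) → ↥(Tw X σ N δ) := fun x =>
    ⟨ph m (2 * N) (1 / 2) x.1, ph_tw hm hr0 hU hσ hδr x.2 hhalf⟩
  have hFc : Continuous F := by
    refine Continuous.subtype_mk ?_ _
    rw [← continuousOn_univ]
    exact ph_cont hm (2 * N) hδr continuous_subtype_val.continuousOn continuousOn_const
      (fun z _ => z.2.1) (fun _ _ => hhalf)
  have hFen : ∀ x : ↥(Tw X σ N δ), En (2 * N) (F x).1 ≤ En (2 * N) x.1 := fun x =>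
    (Pool.Agent.Y812.GE.t_EN X r m hm (2 * N) δ hδr x.1 x.2.1 (1 / 2) hhalf).2
  have hFfix : ∀ x : ↥(Tw X σ N δ), (∀ i, x.1 i = x.1 0) → F x = x := by
    intro x hx
    apply Subtype.ext
    funext i
    change m (x.1 i) (x.1 (i + 1)) (1 / 2) = x.1 i
    rw [hx (i + 1), hx i]
    exact hm.self hr _ hhalf
  have hFkfix : ∀ k : ℕ, ∀ x : ↥(Tw X σ N δ), (∀ i, x.1 i = x.1 0) → F^[k] x = x := by
    intro k x hx
    exact Function.iterate_fixed (hFfix x hx) k
  have hFken : ∀ k : ℕ, ∀ x : ↥(Tw X σ N δ), En (2 * N) (F^[k] x).1 < e ^ 2 ∨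
      En (2 * N) (F^[k] x).1 ≤ En (2 * N) x.1 - k * η := by
    intro k x
    induction k with
    | zero => right; simp
    | succ k ih =>
      rw [Function.iterate_succ_apply']
      rcases ih with h | h
      · left; exact (hFen _).trans_lt h
      · rcases lt_or_ge (En (2 * N) (F^[k] x).1) (e ^ 2) with h2 | h2
        · left; exact (hFen _).trans_lt h2
        · right
          have h3 := hdec (F^[k] x).1 (F^[k] x).2.1 h2
          change En (2 * N) (ph m (2 * N) (1 / 2) (F^[k] x).1) ≤ _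
          push_cast
          linarith
  obtain ⟨k, hk⟩ := exists_nat_gt (((2 * N : ℕ) : ℝ) * δ ^ 2 / η)
  have hkk : ∀ x : ↥(Tw X σ N δ), En (2 * N) (F^[k] x).1 < e ^ 2 := by
    intro x
    rcases hFken k x with h | h
    · exact h
    · have h1 := En_le (2 * N) x.2.1
      have h2 := En_nonneg (2 * N) (F^[k] x).1
      rw [div_lt_iff₀ hη] at hk
      exfalso
      linarith
  -- the homotopy of one step
  have hstep : Htp (Y := ↥(Tw X σ N δ)) (W := ZMod (2 * N) → X) (Tw X σ N δ)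
      {x | ∀ i, x.1 i = x.1 0} (fun x => x.1) (fun x => (F x).1) := by
    have hs : ∀ s ∈ Icc (0 : ℝ) 1, s / 2 ∈ Icc (0 : ℝ) 1 := fun s hs =>
      ⟨by linarith [hs.1], by linarith [hs.2]⟩
    refine Htp.of_clamp (fun y s => ph m (2 * N) (s / 2) y.1) ?_ ?_ ?_ ?_ ?_
    · exact ph_cont hm (2 * N) hδr (continuous_subtype_val.comp continuous_fst).continuousOn
        (continuous_snd.div_const 2).continuousOn (fun z _ => z.1.2.1) (fun z hz => hs _ hz)
    · intro y s h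
      exact ph_tw hm hr0 hU hσ hδr y.2 (hs s h)
    · intro y
      funext i
      change m (y.1 i) (y.1 (i + 1)) (0 / 2) = y.1 i
      rw [zero_div]
      exact hm.zero _ _ ((y.2.1 i).trans hδr)
    · intro y
      rfl
    · intro y hy s h
      funext i
      change m (y.1 i) (y.1 (i + 1)) (s / 2) = y.1 i
      rw [hy (i + 1), hy i]
      exact hm.self hr _ (hs s h)
  have hiter : ∀ k : ℕ, Htp (Y := ↥(Tw X σ N δ)) (W := ZMod (2 * N) → X) (Tw X σ N δ)
      {x | ∀ i, x.1 i = x.1 0} (fun x => x.1) (fun x => (F^[k] x).1) := by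
    intro k
    induction k with
    | zero =>
      refine ⟨fun y _ => y.1, ?_, ?_, ?_, ?_, ?_⟩
      · exact continuous_subtype_val.comp continuous_fst
      · exact fun y _ => y.2
      · exact fun _ _ _ => rfl
      · exact fun _ _ _ => rfl
      · exact fun _ _ _ => rfl
    | succ k ih =>
      have h1 := hstep.precomp (Z' := {x : ↥(Tw X σ N δ) | ∀ i, x.1 i = x.1 0}) (F^[k])
        (hFc.iterate k) (fun y hy => by rw [hFkfix k y hy]; exact hy)
      have h2 := ih.trans h1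
      have h3 : (fun x : ↥(Tw X σ N δ) => (F^[k + 1] x).1) = fun x => (F (F^[k] x)).1 := by
        funext x
        rw [Function.iterate_succ_apply']
      rw [h3]
      exact h2
  refine ⟨F^[k], hiter k, fun y i => ?_⟩
  have h1 := far_le (2 * N) he0 (hkk y) i
  have h2 : ((2 * N : ℕ) : ℝ) * e = δ / 2 := by
    rw [he]
    field_simp
  rwa [h2] at h1

/-- points near to their images are moved to fixed points -/
theorem mid_fix (hm : GMap X r m) (hr : r < r₀) (hU : UniqGeod X r₀) {σ : X → X}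
    (hσ : Isometry σ) (hσ2 : ∀ x, σ (σ x) = x) {w : X} (hw : dist w (σ w) ≤ r) :
    σ (m w (σ w) (1 / 2)) = m w (σ w) (1 / 2) := by
  have hh : (1 / 2 : ℝ) ∈ Icc (0 : ℝ) 1 := ⟨by norm_num, by norm_num⟩
  rw [m_equiv hm hr hU hσ hw hh, hσ2]
  have := m_symm hm hr hU hw hh
  rw [show (1 : ℝ) - 1 / 2 = 1 / 2 by norm_num] at this
  exact this

end Pool.Agent.K7.H35.C
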