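import Pool.Agent.K7.H35.R.Init
import Pool.Agent.K7.H35.C.Tw
import Pool.Agent.Y911.GE.SET

/-!
# The initial family of polygons
-/

set_option autoImplicit false

open Set Topology Filter

namespace Pool.Agent.K7.H35.C

open Pool.Agent.Y489.GE Pool.Agent.Y911.GE Pool.Agent.K7.H35.R

variable {X : Type} [MetricSpace X]

/-- weights and families of paths from a set `P` -/
theorem data_exists {Y : Type} [MetricSpace Y] [CompactSpace Y] {q : ℕ} (hq : CovDim Y q)
    {r : ℝ} {m : X → X → ℝ → X} (hm : GMap X r m) {P : Set X} {p : X} (hp : p ∈ P) {D : ℝ}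
    (hD : 0 ≤ D) (hpath : ∀ x : X, ∃ z ∈ P, ∃ c ∈ Pa z D, c D = x) {ε : ℝ} (hε : 0 < ε)
    (hεr : ε ≤ r) (f : Y → X) (hf : Continuous f) (A : Set Y) (hA : ∀ k ∈ A, f k = p) :
    ∃ (t : ℕ → Y → ℝ) (ρ : ℕ → Y → ℝ → X), DataF P (D + ε) q f A t ρ := by
  classical
  have hu := CompactSpace.uniformContinuous_of_continuous hf
  rw [Metric.uniformContinuous_iff] at hu
  obtain ⟨δ, hδ, hfδ⟩ := hu ε hε
  obtain ⟨n, U, hUo, hUd, hUc, hUq⟩ := hq (δ / 2) (by positivity)
  have hfU : ∀ i, ∀ x ∈ U i, ∀ y ∈ U i, dist (f x) (f y) ≤ ε := by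
    intro i x hx y hy
    exact (hfδ (lt_of_le_of_lt (hUd i x hx y hy) (by linarith))).le
  have hbump : ∀ i, ∃ φ : Y → ℝ, Continuous φ ∧ (∀ k, 0 ≤ φ k) ∧ ∀ k, 0 < φ k ↔ k ∈ U i :=
    fun i => bump (U i) (hUo i)
  choose φ hφc hφ0 hφU using hbump
  have hfam : ∀ i, ∃ R : Y → ℝ → X, ContinuousOn R (U i) ∧
      (∀ k ∈ U i, PF P (R k) ∧ R k (D + ε) = f k) ∧
      ∀ k ∈ A, k ∈ U i → R k = fun _ => f k := by
    intro i
    by_cases h : ∃ k₁, k₁ ∈ U i ∧ k₁ ∈ A
    · obtain ⟨k₁, h1, h2⟩ := h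
      obtain ⟨R, R1, R2, R3⟩ := fam r m hm p D ε hD hε hεr f hf (U i) p (fun _ => p)
        ⟨fun s t => by rw [dist_self]; exact abs_nonneg _, fun _ _ => rfl, fun _ _ => rfl⟩ rfl
        (fun k hk => by rw [← hA k₁ h2]; exact hfU i k₁ h1 k hk)
      refine ⟨R, R1, fun k hk => ⟨⟨(R2 k hk).1.1, ?_⟩, (R2 k hk).2⟩, fun k hk _ => ?_⟩
      · rw [(R2 k hk).1.2.1 0 le_rfl]
        exact hp
      · rw [R3 rfl k (hA k hk), hA k hk]
    · by_cases hne : ∃ k₁, k₁ ∈ U i
      · obtain ⟨k₁, h1⟩ := hne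
        obtain ⟨z, hz, c, hc, hcD⟩ := hpath (f k₁)
        obtain ⟨R, R1, R2, R3⟩ := fam r m hm z D ε hD hε hεr f hf (U i) (f k₁) c
          hc hcD (fun k hk => hfU i k₁ h1 k hk)
        refine ⟨R, R1, fun k hk => ⟨⟨(R2 k hk).1.1, ?_⟩, (R2 k hk).2⟩,
          fun k hk hk' => (h ⟨k, hk', hk⟩).elim⟩
        rw [(R2 k hk).1.2.1 0 le_rfl]
        exact hz
      · exact ⟨fun k _ => f k, continuousOn_of_forall_continuousAt fun k hk => (hne ⟨k, hk⟩).elim,
          fun k hk => (hne ⟨k, hk⟩).elim, fun _ _ _ => rfl⟩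
  have hS' : ∀ S : Finset (Fin n), ∃ R : Y → ℝ → X, S.Nonempty →
      (ContinuousOn R {k | 0 < wt φ S k} ∧
      (∀ k, 0 < wt φ S k → PF P (R k) ∧ R k (D + ε) = f k) ∧
      ∀ k ∈ A, 0 < wt φ S k → R k = fun _ => f k) := by
    intro S
    by_cases hne : S.Nonempty
    · obtain ⟨i, hi⟩ := hne
      obtain ⟨R, R1, R2, R3⟩ := hfam i
      have hin : ∀ k, 0 < wt φ S k → k ∈ U i := by
        intro k hk
        rw [wt_pos φ hφ0] at hk
        exact (hφU i k).1 (hk i hi).1
      exact ⟨R, fun _ => ⟨R1.mono fun k hk => hin k hk, fun k hk => R2 k (hin k hk),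
        fun k hk hk' => R3 k hk (hin k hk')⟩⟩
    · exact ⟨fun k _ => f k, fun h => (hne h).elim⟩
  choose R hR using hS'
  have hcardne : ∀ (S : Finset (Fin n)) (j : ℕ), S.card = j + 1 → S.Nonempty := by
    intro S j h
    rw [← Finset.card_pos]
    omega
  -- the weights and the families
  let t : ℕ → Y → ℝ := fun j k => ∑ S ∈ Finset.univ.filter
    (fun S : Finset (Fin n) => S.card = j + 1), wt φ S k
  let ρ : ℕ → Y → ℝ → X := fun j k =>
    if h : ∃ S : Finset (Fin n), S.card = j + 1 ∧ 0 < wt φ S k then R h.choose k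
    else fun _ => f k
  have htpos : ∀ j k, 0 < t j k ↔ ∃ S : Finset (Fin n), S.card = j + 1 ∧ 0 < wt φ S k := by
    intro j k
    constructor
    · intro h
      by_contra hn
      push Not at hn
      have : t j k ≤ 0 := Finset.sum_nonpos fun S hS => hn S (Finset.mem_filter.1 hS).2
      linarith
    · rintro ⟨S, h1, h2⟩
      exact Finset.sum_pos' (fun T _ => wt_nonneg φ hφ0 T k)
        ⟨S, Finset.mem_filter.2 ⟨Finset.mem_univ _, h1⟩, h2⟩
  have hρ : ∀ j k (S : Finset (Fin n)), S.card = j + 1 → 0 < wt φ S k → ρ j k = R S k := by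
    intro j k S h1 h2
    have hex : ∃ S : Finset (Fin n), S.card = j + 1 ∧ 0 < wt φ S k := ⟨S, h1, h2⟩
    show (if h : ∃ S : Finset (Fin n), S.card = j + 1 ∧ 0 < wt φ S k then R h.choose k
      else fun _ => f k) = R S k
    rw [dif_pos hex]
    have := hex.choose_spec
    rw [wt_uniq φ hφ0 hex.choose S (this.1.trans h1.symm) k this.2 h2]
  refine ⟨t, ρ, ?_, ?_, ?_, ?_, ?_, ?_⟩
  · intro j
    exact continuous_finsetSum _ fun S _ => wt_cont φ hφc S
  · intro j k
    exact Finset.sum_nonneg fun S _ => wt_nonneg φ hφ0 S k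
  · intro k
    have hcard := hUq k
    rw [Nat.card_eq_fintype_card, Fintype.card_subtype] at hcard
    obtain ⟨i, hi⟩ := hUc k
    have hpos : 0 < (Finset.univ.filter fun i : Fin n => k ∈ U i).card :=
      Finset.card_pos.2 ⟨i, Finset.mem_filter.2 ⟨Finset.mem_univ _, hi⟩⟩
    refine ⟨(Finset.univ.filter fun i : Fin n => k ∈ U i).card - 1, by omega, ?_⟩
    rw [htpos]
    refine ⟨Finset.univ.filter fun i : Fin n => k ∈ U i, by omega, ?_⟩
    rw [wt_pos φ hφ0]
    intro i hi
    have hi' := (Finset.mem_filter.1 hi).2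
    refine ⟨(hφU i k).2 hi', ?_⟩
    intro j hj
    have hj' : ¬ k ∈ U j := fun h => hj (Finset.mem_filter.2 ⟨Finset.mem_univ _, h⟩)
    have h1 : ¬ 0 < φ j k := fun h => hj' ((hφU j k).1 h)
    have h2 := (hφU i k).2 hi'
    linarith
  · intro j k hk
    obtain ⟨S, h1, h2⟩ := (htpos j k).1 hk
    have hopen : IsOpen {k | 0 < wt φ S k} := isOpen_lt continuous_const (wt_cont φ hφc S)
    have hRc := ((hR S (hcardne S j h1)).1 k h2).continuousAt (hopen.mem_nhds h2)
    apply ContinuousAt.continuousWithinAt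
    refine hRc.congr ?_
    filter_upwards [hopen.mem_nhds h2] with k' hk'
    exact (hρ j k' S h1 hk').symm
  · intro j k hk
    obtain ⟨S, h1, h2⟩ := (htpos j k).1 hk
    rw [hρ j k S h1 h2]
    exact (hR S (hcardne S j h1)).2.1 k h2
  · intro j k hkA hk
    obtain ⟨S, h1, h2⟩ := (htpos j k).1 hk
    rw [hρ j k S h1 h2]
    exact (hR S (hcardne S j h1)).2.2 k hkA h2

/-- the concatenation of curves `c 0`, `c 1`, … with the lengths `a` -/
noncomputable def cat (a : ℝ) (c : ℕ → ℝ → X) : ℕ → ℝ → X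
  | 0, _ => c 0 0
  | n + 1, s => if s ≤ n * a then cat a c n s else c n (s - n * a)

omit [MetricSpace X] in
theorem cat_ge {a : ℝ} {c : ℕ → ℝ → X} {n : ℕ} (hn : 0 < n) (ha : 0 < a)
    (hcon : ∀ i, i + 1 < n → c i a = c (i + 1) 0)
    (hst : ∀ i, i < n → ∀ s, a ≤ s → c i s = c i a) {s : ℝ} (hs : n * a ≤ s) :
    cat a c n s = c (n - 1) a := by
  obtain ⟨k, rfl⟩ : ∃ k, n = k + 1 := ⟨n - 1, by omega⟩
  unfold cat
  push_cast at hs
  rw [if_neg (by nlinarith), Nat.add_sub_cancel]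
  exact hst k (by omega) _ (by nlinarith)

theorem cat_lip {a : ℝ} (ha : 0 < a) {c : ℕ → ℝ → X} {n : ℕ}
    (hl : ∀ i, i < n → ∀ s t, dist (c i s) (c i t) ≤ |s - t|)
    (hcon : ∀ i, i + 1 < n → c i a = c (i + 1) 0)
    (hst : ∀ i, i < n → ∀ s, a ≤ s → c i s = c i a) (s t : ℝ) :
    dist (cat a c n s) (cat a c n t) ≤ |s - t| := by
  induction n generalizing s t with
  | zero =>
    show dist (c 0 0) (c 0 0) ≤ _
    rw [dist_self]
    exact abs_nonneg _
  | succ n ih =>
    have ih' := ih (fun i hi => hl i (by omega)) (fun i hi => hcon i (by omega))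
      (fun i hi => hst i (by omega))
    have hend : cat a c n (n * a) = c n 0 := by
      rcases Nat.eq_zero_or_pos n with rfl | hn
      · rfl
      · rw [cat_ge hn ha (fun i hi => hcon i (by omega)) (fun i hi => hst i (by omega)) le_rfl]
        have := hcon (n - 1) (by omega)
        rw [this]
        congr 1
        omega
    have key : ∀ s t : ℝ, s ≤ t → dist (cat a c (n + 1) s) (cat a c (n + 1) t) ≤ t - s := by
      intro s t hst'
      simp only [cat]
      split_ifs with h1 h2 h2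
      · exact (ih' s t).trans (by rw [abs_sub_comm, abs_of_nonneg (by linarith)])
      · push Not at h2
        have h3 := ih' s (n * a)
        rw [hend, abs_sub_comm, abs_of_nonneg (by linarith)] at h3
        have h4 := hl n (by omega) 0 (t - n * a)
        rw [zero_sub, abs_neg, abs_of_nonneg (by linarith)] at h4
        linarith [dist_triangle (cat a c n s) (c n 0) (c n (t - n * a))]
      · exact absurd (hst'.trans h2) h1
      · refine (hl n (by omega) _ _).trans ?_
        rw [abs_sub_comm, abs_of_nonneg (by linarith)]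
        linarith
    rcases le_total s t with h | h
    · rw [abs_sub_comm, abs_of_nonneg (by linarith)]
      exact key s t h
    · rw [abs_of_nonneg (by linarith), dist_comm]
      exact key t s h

omit [MetricSpace X] in
theorem cat_zero {a : ℝ} (ha : 0 ≤ a) (c : ℕ → ℝ → X) (n : ℕ) : cat a c n 0 = c 0 0 := by
  induction n with
  | zero => rfl
  | succ n ih =>
    unfold cat
    rw [if_pos (by positivity), ih]

theorem cat_cont {Y : Type} [TopologicalSpace Y] {a : ℝ} {c : Y → ℕ → ℝ → X}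
    (hc : ∀ i s, Continuous fun y => c y i s) (n : ℕ) (s : ℝ) :
    Continuous fun y => cat a (c y) n s := by
  induction n with
  | zero => exact hc 0 0
  | succ n ih =>
    unfold cat
    split_ifs
    · exact ih
    · exact hc n _

omit [MetricSpace X] in
theorem cat_const {a : ℝ} {c : ℕ → ℝ → X} {p : X} (hc : ∀ i s, c i s = p) (n : ℕ) (s : ℝ) :
    cat a c n s = p := by
  induction n with
  | zero => exact hc 0 0
  | succ n ih =>
    unfold cat
    split_ifs
    · exact ih
    · exact hc n _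

end Pool.Agent.K7.H35.C
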