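import Pool.Agent.K7.H35.C.Curve
import Pool.Agent.K7.H35.R.Asm
import Pool.Agent.Y489.GE.Fin2
import Pool.Agent.Y467.GE.MG
import Pool.Agent.Y165.GE.CG

/-!
# Isometric involutions which are deformed to the identity
-/

set_option autoImplicit false

open Set Topology Filter

namespace Pool.Agent.K7.H35.C

open Pool.Agent.Y489.GE Pool.Agent.Y911.GE Pool.Agent.K7.H35.R

variable {X : Type} [MetricSpace X]

theorem Turn.sigma {σ : X → X} {P : Set X} {lam : ℝ} {g : ℝ → X → X} (hg : Turn X σ P lam g)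
    {z : X} (hz : z ∈ P) : σ z = z := by
  rw [← hg.one, hg.fix 1 z hz]

theorem core [CompactSpace X] (hX : GeodSpace X) {r : ℝ} (hr : 0 < r) (hU : UniqGeod X r)
    {σ : X → X} (hσ : Isometry σ) (hσ2 : ∀ x, σ (σ x) = x) {P : Set X} {lam : ℝ}
    {g : ℝ → X → X} (hg : Turn X σ P lam g) {D : ℝ} (hDP : ∀ x : X, ∃ z ∈ P, dist z x ≤ D)
    (q : ℕ) (Y : Type) [MetricSpace Y] [CompactSpace Y] (hY : CovDim Y q) (f : Y → X)
    (hf : Continuous f) {p : X} (hp : p ∈ P) (A : Set Y) (hA : ∀ y ∈ A, f y = p)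
    (hno : ¬ ClosedGeod X (4 * (q + 1) * lam * D)) :
    ∃ H : Y → ℝ → X, Continuous (fun z : Y × ℝ => H z.1 z.2) ∧ (∀ k, σ (H k 0) = H k 0) ∧
      (∀ k, H k 1 = f k) ∧ ∀ k ∈ A, ∀ s, H k s = p := by
  classical
  -- the trivial cases
  have htriv : (∀ y, σ (f y) = f y) → ∃ H : Y → ℝ → X, Continuous (fun z : Y × ℝ => H z.1 z.2) ∧
      (∀ k, σ (H k 0) = H k 0) ∧ (∀ k, H k 1 = f k) ∧ ∀ k ∈ A, ∀ s, H k s = p := fun h =>
    ⟨fun k _ => f k, hf.comp continuous_fst, h, fun _ => rfl, fun k hk _ => hA k hk⟩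
  rcases le_or_gt D 0 with hD0 | hD0
  · refine htriv fun y => ?_
    obtain ⟨z, hz, hzd⟩ := hDP (f y)
    rw [← dist_le_zero.1 (hzd.trans hD0)]
    exact hg.sigma hz
  by_cases hsub : Subsingleton X
  · exact htriv fun y => Subsingleton.elim _ _
  have hlam : 1 ≤ lam := by
    have hnt : Nontrivial X := not_subsingleton_iff_nontrivial.1 hsub
    obtain ⟨x, y, hxy⟩ := exists_pair_ne X
    have h1 := hg.lip 0 x y
    rw [hg.zero, hg.zero] at h1
    have h2 : 0 < dist x y := dist_pos.2 hxy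
    by_contra hcon
    push Not at hcon
    nlinarith
  have hlam0 : 0 < lam := by linarith
  obtain ⟨m, hm⟩ := Pool.Agent.Y467.GE.t_MG X r hr hX hU
  have hr2 : 0 < r / 2 := by linarith
  have hr0 : r / 2 < r := by linarith
  set S : ℝ := ((2 * (q + 1) : ℕ) : ℝ) * lam with hS
  have hS0 : 0 < S := by positivity
  obtain ⟨N, hN⟩ := exists_nat_gt (S * (D + 1) / (r / 2))
  have hN0 : (0 : ℝ) < N := lt_trans (by positivity) hN
  have hN' : N ≠ 0 := by
    rintro rfl
    simp at hN0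
  have : NeZero N := ⟨hN'⟩
  have : NeZero (2 * N) := ⟨by omega⟩
  have hcast : ((2 * N : ℕ) : ℝ) = 2 * (N : ℝ) := by push_cast; ring
  have hNr : S * (D + 1) / N < r / 2 := by
    rw [div_lt_iff₀ hr2] at hN
    rw [div_lt_iff₀ hN0]
    linarith
  have hN1 : ∀ b : ℝ, b ≤ D + 1 → S * b / N ≤ r / 2 := by
    intro b hb
    refine le_trans ?_ hNr.le
    exact div_le_div_of_nonneg_right (mul_le_mul_of_nonneg_left hb hS0.le) hN0.le
  by_cases hbad : ∀ ε : ℝ, 0 < ε → ε ≤ min (r / 2) 1 →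
      ∃ x ∈ Pol X (2 * N) (S * (D + ε) / N), (S * D / N / (2 * (2 * N : ℕ))) ^ 2 ≤ En (2 * N) x ∧
        En (2 * N) (ph m (2 * N) (1 / 2) x) = En (2 * N) x
  · exfalso
    apply hno
    set ε₁ := min (r / 2) 1 with hε₁
    have hε₁0 : 0 < ε₁ := lt_min hr2 one_pos
    have hu : Tendsto (fun n : ℕ => S * (D + ε₁ * (1 / ((n : ℝ) + 1))) / N) atTop
        (𝓝 (S * D / N)) := by
      have h1 : Tendsto (fun n : ℕ => S * (D + ε₁ * (1 / ((n : ℝ) + 1))) / N) atTop
          (𝓝 (S * (D + ε₁ * 0) / N)) :=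
        (tendsto_const_nhds.mul (tendsto_const_nhds.add (tendsto_const_nhds.mul
          tendsto_one_div_add_atTop_nhds_zero_nat))).div_const _
      simpa using h1
    have hlt : S * D / N < r / 2 := by
      refine lt_of_lt_of_le ?_ hNr.le
      exact div_lt_div_of_pos_right (by nlinarith) hN0
    obtain ⟨x, hx1, hx2, hx3⟩ := limit_polygon hm (2 * N) (S * D / N)
      ((S * D / N / (2 * (2 * N : ℕ))) ^ 2) hlt _ hu
      (by
        intro n
        have hn1 : (0 : ℝ) < 1 / ((n : ℝ) + 1) := by positivity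
        have hn2 : 1 / ((n : ℝ) + 1) ≤ 1 := by
          rw [div_le_one (by positivity)]
          have : (0 : ℝ) ≤ n := Nat.cast_nonneg n
          linarith
        have hle : ε₁ * (1 / ((n : ℝ) + 1)) ≤ ε₁ := by nlinarith
        exact hbad _ (by positivity) hle)
    have hpos : 0 < En (2 * N) x := lt_of_lt_of_le (by positivity) hx2
    have h5 := Pool.Agent.Y165.GE.t_CG X (r / 2) m hm (2 * N) (S * D / N) hlt.le x hx1 hx3 hpos
    have h6 : ((2 * N : ℕ) : ℝ) * (S * D / N) = 4 * (q + 1) * lam * D := by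
      rw [hcast, hS]
      field_simp
      push_cast
      ring
    rwa [h6] at h5
  · push Not at hbad
    obtain ⟨ε, hε0, hεr, hgood⟩ := hbad
    have hεr1 : ε ≤ r / 2 := hεr.trans (min_le_left _ _)
    have hε1 : ε ≤ 1 := hεr.trans (min_le_right _ _)
    have hb0 : 0 < D + ε := by linarith
    set δ : ℝ := S * (D + ε) / N with hδ
    have hδ0 : 0 < δ := by positivity
    have hδr : δ ≤ r / 2 := hN1 _ (by linarith)
    obtain ⟨t, ρ, hdata⟩ := data_exists hY hm hp hD0.le (fun x => by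
      obtain ⟨z, hz, hzd⟩ := hDP x
      exact ⟨z, hz, exists_path hX z x hD0 hzd⟩) hε0 hεr1 f hf A hA
    obtain ⟨Γ, hΓc, hΓl, hΓ0, hΓ1, hΓA⟩ := curves hg hlam0 hb0 hf
      (fun y hy => by rw [hA y hy]; exact hp) hdata
    obtain ⟨Φ, hΦ, hΦs⟩ := shorten hm hr0 hU hσ N hδ0 hδr (by
      intro x hx hxe
      refine hgood x hx (le_trans ?_ hxe)
      refine pow_le_pow_left₀ (by positivity) ?_ 2
      refine div_le_div_of_nonneg_right ?_ (by positivity)
      exact div_le_div_of_nonneg_right (mul_le_mul_of_nonneg_left (by linarith) hS0.le) hN0.le)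
    have hmem : ∀ y, pol σ N δ (Γ y) ∈ Tw X σ N δ := by
      intro y
      refine pol_tw hσ hσ2 hδ0.le (hΓl y) ?_
      have e : (N : ℝ) * δ = ((2 * (q + 1) : ℕ) : ℝ) * (lam * (D + ε)) := by
        rw [hδ, hS]
        field_simp
      rw [e, hΓ1, hΓ0]
    have hcc : Continuous fun y => (⟨pol σ N δ (Γ y), hmem y⟩ : ↥(Tw X σ N δ)) :=
      Continuous.subtype_mk (pol_cont hσ.continuous hΓc) _
    have hpre := hΦ.precomp (Z' := A) (fun y => (⟨pol σ N δ (Γ y), hmem y⟩ : ↥(Tw X σ N δ))) hcc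
      (by
        intro y hy i
        show pol σ N δ (Γ y) i = pol σ N δ (Γ y) 0
        have h1 : ∀ i, pol σ N δ (Γ y) i = p := by
          intro i
          unfold pol
          rw [hΓA y hy, hΓA y hy, hA y hy, hg.sigma hp, ite_self]
        rw [h1, h1])
    set G : Y → X := fun y => (Φ ⟨pol σ N δ (Γ y), hmem y⟩).1 0 with hG
    have ph1 : Htp (univ : Set X) A f G := by
      obtain ⟨H, h1, h2, h3, h4, h5⟩ := hpre
      have e0 : ∀ y, pol σ N δ (Γ y) 0 = f y := fun y => by rw [pol_zero, hΓ0]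
      refine ⟨fun y s => H y s 0, (continuous_apply (0 : ZMod (2 * N))).comp h1,
        fun _ _ => mem_univ _, fun y s hs => ?_, fun y s hs => ?_, fun y hy s => ?_⟩
      · show H y s 0 = f y
        rw [h3 y s hs]
        exact e0 y
      · show H y s 0 = G y
        rw [h4 y s hs]
      · show H y s 0 = f y
        rw [h5 y hy s]
        exact e0 y
    have hGc : Continuous G := htp_cont ph1
    have hGσ : ∀ y, dist (G y) (σ (G y)) ≤ r / 2 := by
      intro y
      have h1 := hΦs ⟨pol σ N δ (Γ y), hmem y⟩ (0 + (N : ZMod (2 * N)))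
      rw [(Φ ⟨pol σ N δ (Γ y), hmem y⟩).2.2 0, dist_comm] at h1
      exact h1.trans (by linarith)
    have hGA : ∀ y ∈ A, G y = p := fun y hy => by rw [htp_eq ph1 hy, hA y hy]
    have ph2 : Htp (univ : Set X) A G (fun y => m (G y) (σ (G y)) (1 / 2)) := by
      refine Htp.of_clamp (fun y s => m (G y) (σ (G y)) (s / 2)) ?_ (fun _ _ _ => mem_univ _)
        (fun y => ?_) (fun y => rfl) (fun y hy s hs => ?_)
      · have h1 : ContinuousOn (fun z : Y × ℝ => (G z.1, σ (G z.1), z.2 / 2))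
            {z | z.2 ∈ Icc (0 : ℝ) 1} := by
          apply Continuous.continuousOn
          exact (hGc.comp continuous_fst).prodMk ((hσ.continuous.comp
            (hGc.comp continuous_fst)).prodMk (continuous_snd.div_const _))
        refine hm.cont.comp h1 fun z hz => ⟨hGσ z.1, ?_⟩
        have hz' : z.2 ∈ Icc (0 : ℝ) 1 := hz
        exact ⟨by linarith [hz'.1], by linarith [hz'.2]⟩
      · show m (G y) (σ (G y)) (0 / 2) = G y
        rw [zero_div, hm.zero _ _ (hGσ y)]
      · show m (G y) (σ (G y)) (s / 2) = G y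
        rw [hGA y hy, hg.sigma hp]
        exact hm.self hr2.le _ ⟨by linarith [hs.1], by linarith [hs.2]⟩
    obtain ⟨H, h1, _, h3, h4, h5⟩ := ph1.trans ph2
    refine ⟨fun y s => H y (1 - s), ?_, fun y => ?_, fun y => ?_, fun y hy s => ?_⟩
    · exact h1.comp (continuous_fst.prodMk (continuous_const.sub continuous_snd))
    · show σ (H y (1 - 0)) = H y (1 - 0)
      rw [h4 y (1 - 0) (by norm_num)]
      exact mid_fix hm hr0 hU hσ hσ2 (hGσ y)
    · show H y (1 - 1) = f y
      exact h3 y (1 - 1) (by norm_num)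
    · show H y (1 - s) = p
      rw [h5 y hy, hA y hy]

end Pool.Agent.K7.H35.C
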